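import Pool.Agent.W2helper44.OT.Stm

/-!
# Project OT, piece PAIR: a subcomplex with relative Tate groups killed by an integer prime to `p`
-/

set_option autoImplicit false

namespace Pool.Agent.W2helper12.OT

open Module Pool.Agent.W2helper44.OT

section op

variable {M : Type} [AddCommGroup M]

lemma op_congr (h : M →ₗ[ℤ] M) (m : ℕ) {s s' : ℕ} (hs : Even s ↔ Even s') :
    op h m s = op h m s' := by
  unfold op
  by_cases h1 : Even s
  · rw [if_pos h1, if_pos (hs.1 h1)]
  · rw [if_neg h1, if_neg (fun h2 => h1 (hs.2 h2))]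

lemma op_comp (h : M →ₗ[ℤ] M) (m : ℕ) (hm : ∀ x, (h ^ m) x = x) (s : ℕ) (x : M) :
    op h m s (op h m (s + 1) x) = 0 := by
  have hm' : (h ^ m : Module.End ℤ M) - 1 = 0 := by
    rw [sub_eq_zero]
    exact LinearMap.ext hm
  unfold op
  by_cases h1 : Even s
  · rw [if_pos h1, if_neg (by rw [Nat.even_add_one]; exact not_not.2 h1)]
    change ((h - 1 : Module.End ℤ M) * (∑ j ∈ Finset.range m, (h ^ j : Module.End ℤ M))) x = 0
    rw [mul_geom_sum, hm', LinearMap.zero_apply]
  · rw [if_neg h1, if_pos (by rw [Nat.even_add_one]; exact h1)]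
    change ((∑ j ∈ Finset.range m, (h ^ j : Module.End ℤ M)) * (h - 1 : Module.End ℤ M)) x = 0
    rw [geom_sum_mul, hm', LinearMap.zero_apply]

/-- a homomorphism which commutes with `h` commutes with `op` -/
lemma map_op {M' : Type} [AddCommGroup M'] (f : M' →ₗ[ℤ] M) (h' : M' →ₗ[ℤ] M') (h : M →ₗ[ℤ] M)
    (hf : ∀ x, f (h' x) = h (f x)) (m s : ℕ) (x : M') : f (op h' m s x) = op h m s (f x) := by
  have hp : ∀ (j : ℕ) (x : M'), f ((h' ^ j) x) = (h ^ j) (f x) := by
    intro j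
    induction j with
    | zero => intro x; rfl
    | succ j ih =>
      intro x
      rw [pow_succ, pow_succ, Module.End.mul_apply, Module.End.mul_apply, ih, hf]
  unfold op
  by_cases h1 : Even s
  · rw [if_pos h1, if_pos h1, LinearMap.sub_apply, LinearMap.sub_apply, map_sub, hf]
    rfl
  · rw [if_neg h1, if_neg h1, LinearMap.sum_apply, LinearMap.sum_apply, map_sum]
    exact Finset.sum_congr rfl fun j _ => hp j x

end op

/-- homomorphisms whose kernel and cokernel are killed by an integer prime to `p` -/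
lemma cc_eq {T T' : Type} [AddCommGroup T] [AddCommGroup T'] (φ : T' →ₗ[ℤ] T) (p k : ℕ) (C : ℤ)
    (hC : IsCoprime C ((p : ℤ) ^ k)) (hker : ∀ y, φ y = 0 → C • y = 0)
    (hcok : ∀ x, ∃ y, φ y = C • x) : cc p k T' = cc p k T := by
  have hle : LinearMap.range (((p : ℤ) ^ k) • (LinearMap.id : T' →ₗ[ℤ] T')) ≤
      (LinearMap.range (((p : ℤ) ^ k) • (LinearMap.id : T →ₗ[ℤ] T))).comap φ := by
    rintro _ ⟨y, rfl⟩
    refine ⟨φ y, ?_⟩
    change ((p : ℤ) ^ k) • φ y = φ (((p : ℤ) ^ k) • y)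
    rw [map_smul]
  refine Nat.card_congr (Equiv.ofBijective (Submodule.mapQ _ _ φ hle) ⟨?_, ?_⟩)
  · rw [injective_iff_map_eq_zero]
    intro y hy
    obtain ⟨y, rfl⟩ := Submodule.Quotient.mk_surjective _ y
    rw [Submodule.mapQ_apply, Submodule.Quotient.mk_eq_zero] at hy
    obtain ⟨x, hx⟩ := hy
    have hx' : ((p : ℤ) ^ k) • x = φ y := hx
    rw [Submodule.Quotient.mk_eq_zero]
    obtain ⟨y', hy'⟩ := hcok x
    have h1 : φ (C • y - ((p : ℤ) ^ k) • y') = 0 := by
      rw [map_sub, map_smul, map_smul, hy', ← hx', smul_comm, sub_self]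
    have h2 := hker _ h1
    have hC2 : IsCoprime (C * C) ((p : ℤ) ^ k) := hC.mul_left hC
    obtain ⟨a, b, hab⟩ := hC2
    refine ⟨a • C • y' + b • y, ?_⟩
    change ((p : ℤ) ^ k) • (a • C • y' + b • y) = y
    have h3 : C • C • y = C • ((p : ℤ) ^ k) • y' := by
      rw [smul_sub, sub_eq_zero] at h2
      exact h2
    calc ((p : ℤ) ^ k) • (a • C • y' + b • y) =
          a • (C • ((p : ℤ) ^ k) • y') + (b * (p : ℤ) ^ k) • y := by
          rw [smul_add, smul_comm _ a, smul_comm _ C, smul_smul _ b, mul_comm _ b]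
      _ = a • (C • C • y) + (b * (p : ℤ) ^ k) • y := by rw [h3]
      _ = (a * (C * C) + b * (p : ℤ) ^ k) • y := by
          rw [add_smul, smul_smul C C, smul_smul a]
      _ = y := by rw [hab, one_smul]
  · intro x
    obtain ⟨x, rfl⟩ := Submodule.Quotient.mk_surjective _ x
    obtain ⟨y, hy⟩ := hcok x
    obtain ⟨a, b, hab⟩ := hC
    refine ⟨Submodule.Quotient.mk (a • y), ?_⟩
    rw [Submodule.mapQ_apply, Submodule.Quotient.eq]
    refine ⟨-(b • x), ?_⟩
    change ((p : ℤ) ^ k) • (-(b • x)) = φ (a • y) - x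
    rw [map_smul, hy, smul_neg, smul_smul, smul_smul]
    have h : (a * C) • x + (b * (p : ℤ) ^ k) • x = x := by rw [← add_smul, hab, one_smul]
    rw [eq_sub_iff_add_eq, neg_add_eq_sub, sub_eq_iff_eq_add, mul_comm _ b]
    exact h.symm

section cx

variable (A : Cx) (m : ℕ)

lemma D_apply (s : ℕ) (x : ∀ q, A.X q) (q : ℕ) :
    A.D m s x q = A.d q (x (q + 1)) + ((-1 : ℤ) ^ q) • op (A.h q) m (s + q) (x q) := rfl

variable (hm : ∀ q (x : A.X q), (A.h q ^ m) x = x)

include hm in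
lemma D_D (s : ℕ) (x : ∀ q, A.X q) : A.D m s (A.D m (s + 1) x) = 0 := by
  funext q
  rw [D_apply, D_apply, D_apply, map_add, map_add, A.d_d, zero_add, map_smul, map_smul,
    map_op (A.d q) _ _ (A.d_h q), smul_add, smul_smul, ← mul_pow,
    show s + 1 + q = (s + q) + 1 by omega, op_comp _ m (hm q), smul_zero, add_zero,
    op_congr (A.h q) m (s := s + 1 + (q + 1)) (s' := s + q) (by
      rw [show s + 1 + (q + 1) = s + q + 2 by omega]
      simp [Nat.even_add]), ← add_smul, pow_succ]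
  simp

end cx

theorem p_PAIR : P_PAIR := by
  intro A A' ι m p c hp hpc hinj hd hh hm hrel s k
  -- the map of the families
  let Φ : (∀ q, A'.X q) →ₗ[ℤ] (∀ q, A.X q) := LinearMap.pi fun q => (ι q) ∘ₗ (LinearMap.proj q)
  have hΦ : ∀ y q, Φ y q = ι q (y q) := fun _ _ => rfl
  have hΦi : ∀ y, Φ y = 0 → y = 0 := by
    intro y hy
    funext q
    apply hinj q
    rw [← hΦ, hy, Pi.zero_apply, Pi.zero_apply, map_zero]
  have hΦD : ∀ s y, A.D m s (Φ y) = Φ (A'.D m s y) := by
    intro s y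
    funext q
    rw [D_apply, hΦ, hΦ, hΦ, D_apply, map_add, map_smul, hd, map_op (ι q) _ _ (hh q)]
  -- downward induction
  have key : ∀ (j s : ℕ) (x : ∀ q, A.X q), (∀ q, A.D m s x q ∈ LinearMap.range (ι q)) →
      (∀ i, j ≤ i → x i ∈ LinearMap.range (ι i)) →
      ∃ (y : ∀ q, A'.X q) (w : ∀ q, A.X q), ((c : ℤ) ^ j) • x = Φ y + A.D m (s + 1) w := by
    intro j
    induction j with
    | zero =>
      intro s x _ hx
      choose y hy using fun i => hx i (Nat.zero_le i)
      refine ⟨y, 0, ?_⟩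
      rw [pow_zero, one_smul, map_zero, add_zero]
      funext q
      exact (hy q).symm
    | succ j ih =>
      intro s x hDx hx
      have h1 : op (A.h j) m (s + j) (x j) ∈ LinearMap.range (ι j) := by
        have h2 := hDx j
        rw [D_apply] at h2
        obtain ⟨y1, hy1⟩ := hx (j + 1) le_rfl
        have h3 : A.d j (x (j + 1)) ∈ LinearMap.range (ι j) := ⟨A'.d j y1, by rw [hd, hy1]⟩
        have h4 := (Submodule.add_mem_iff_right _ h3).1 h2
        have h5 := (LinearMap.range (ι j)).smul_mem ((-1 : ℤ) ^ j) h4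
        rw [smul_smul, ← mul_pow] at h5
        simpa using h5
      obtain ⟨w₀, y₀, hw₀⟩ := hrel j (s + j) (x j) h1
      let w₁ : ∀ q, A.X q := Pi.single j (((-1 : ℤ) ^ j) • w₀)
      have hw1 : ∀ i, j < i → w₁ i = 0 := fun i hi => Pi.single_eq_of_ne hi.ne' _
      have hw1j : w₁ j = ((-1 : ℤ) ^ j) • w₀ := Pi.single_eq_same j _
      obtain ⟨y, w₂, hw₂⟩ := ih s ((c : ℤ) • x - A.D m (s + 1) w₁) (by
        intro q
        rw [map_sub, D_D A m hm, sub_zero, map_smul, Pi.smul_apply]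
        exact (LinearMap.range (ι q)).smul_mem _ (hDx q)) (by
        intro i hi
        rcases eq_or_lt_of_le hi with rfl | hlt
        · rw [Pi.sub_apply, D_apply, hw1 _ (Nat.lt_succ_self _), map_zero, zero_add, hw1j, map_smul,
            smul_smul, ← mul_pow, Pi.smul_apply, hw₀, show s + 1 + j = s + j + 1 by omega]
          simp
        · rw [Pi.sub_apply, D_apply, hw1 _ hlt, hw1 _ (by omega), map_zero, map_zero, smul_zero,
            add_zero, sub_zero, Pi.smul_apply]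
          exact (LinearMap.range (ι i)).smul_mem _ (hx i hlt))
      refine ⟨y, w₂ + ((c : ℤ) ^ j) • w₁, ?_⟩
      rw [map_add, ← add_assoc, ← hw₂, map_smul, ← smul_add, sub_add_cancel, smul_smul, pow_succ]
  have key' : ∀ (s : ℕ) (x : ∀ q, A.X q), (∀ q, A.D m s x q ∈ LinearMap.range (ι q)) →
      ∃ (y : ∀ q, A'.X q) (w : ∀ q, A.X q),
        ((c : ℤ) ^ (A.dim + 1)) • x = Φ y + A.D m (s + 1) w := fun s x hx =>
    key (A.dim + 1) s x hx fun i hi => by
      rw [A.bdd i (by omega) (x i)]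
      exact Submodule.zero_mem _
  -- the map of the Tate groups
  let φ₀ : LinearMap.ker (A'.D m s) →ₗ[ℤ] LinearMap.ker (A.D m s) :=
    Φ.restrict fun y hy => by
      rw [LinearMap.mem_ker] at hy ⊢
      rw [hΦD, hy, map_zero]
  have hφ₀ : ∀ y, (φ₀ y : ∀ q, A.X q) = Φ y := fun _ => rfl
  have hle : (LinearMap.range (A'.D m (s + 1))).submoduleOf (LinearMap.ker (A'.D m s)) ≤
      ((LinearMap.range (A.D m (s + 1))).submoduleOf (LinearMap.ker (A.D m s))).comap φ₀ := by
    rintro ⟨y, hy⟩ ⟨z, hz⟩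
    refine ⟨Φ z, ?_⟩
    rw [hΦD, hz]
    rfl
  refine cc_eq (Submodule.mapQ _ _ φ₀ hle) p k ((c : ℤ) ^ (A.dim + 1)) ?_ ?_ ?_
  · have h1 : Nat.Coprime c p := ((Nat.Prime.coprime_iff_not_dvd hp).2 hpc).symm
    exact (Nat.isCoprime_iff_coprime.2 h1).pow
  · intro y hy
    obtain ⟨y, rfl⟩ := Submodule.Quotient.mk_surjective _ y
    rw [Submodule.mapQ_apply, Submodule.Quotient.mk_eq_zero] at hy
    obtain ⟨x, hx⟩ := hy
    have hx' : A.D m (s + 1) x = Φ y := hx
    obtain ⟨y', w, hw⟩ := key' (s + 1) x fun q => by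
      rw [hx']
      exact ⟨_, rfl⟩
    rw [← Submodule.Quotient.mk_smul, Submodule.Quotient.mk_eq_zero]
    refine ⟨y', ?_⟩
    have h1 : Φ (((c : ℤ) ^ (A.dim + 1)) • (y : ∀ q, A'.X q) - A'.D m (s + 1) y') = 0 := by
      rw [map_sub, map_smul, ← hx', ← map_smul, hw, map_add, D_D A m hm, add_zero, hΦD, sub_self]
    exact (sub_eq_zero.1 (hΦi _ h1)).symm
  · intro x
    obtain ⟨x, rfl⟩ := Submodule.Quotient.mk_surjective _ x
    have hx : A.D m s x = 0 := x.2
    obtain ⟨y, w, hw⟩ := key' s x fun q => by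
      rw [hx]
      exact Submodule.zero_mem _
    have hy : A'.D m s y = 0 := by
      apply hΦi
      rw [← hΦD]
      have h1 : Φ y = ((c : ℤ) ^ (A.dim + 1)) • (x : ∀ q, A.X q) - A.D m (s + 1) w := by
        rw [hw, add_sub_cancel_right]
      rw [h1, map_sub, map_smul, hx, smul_zero, D_D A m hm, sub_zero]
    refine ⟨Submodule.Quotient.mk ⟨y, hy⟩, ?_⟩
    rw [Submodule.mapQ_apply, ← Submodule.Quotient.mk_smul, Submodule.Quotient.eq]
    refine ⟨-w, ?_⟩
    change A.D m (s + 1) (-w) = Φ y - ((c : ℤ) ^ (A.dim + 1)) • (x : ∀ q, A.X q)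
    rw [hw, map_neg, sub_add_cancel_left]

end Pool.Agent.W2helper12.OT
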